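import Pool.Agent.H64.SB.A4a

/-!
# A4: walls of `K` (MP_bd4439_gt)
-/

namespace Pool.Agent.H64.SB

open Set Filter Topology Module
open scoped RealInnerProductSpace
open Pool.Agent.H63.SB

variable {E : Type} [NormedAddCommGroup E] [InnerProductSpace ℝ E] {K L : Set E}

/-- The data of a wall. -/
structure WD (K L : Set E) (a m : E) : Prop where
  uc : UC K L
  ha : a ∈ Dir K
  hai : a ∉ interior (Dir K)
  hm : m ≠ 0
  hma : ⟪m, a⟫ = 0
  pos : ∀ u ∈ interior (Dir L \ Dir K), 0 < ⟪m, u⟫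
  ex : ∀ v : E, ⟪m, v⟫ ≠ 0 → ∃ q ∈ interior (Dir L \ Dir K), q ∈ Submodule.span ℝ {a, v}

variable {a m : E}

theorem WD.li (h : WD K L a m) {v : E} (hv : ⟪m, v⟫ ≠ 0) : LinearIndependent ℝ ![a, v] := by
  rw [LinearIndependent.pair_iff]
  intro s t hst
  have h1 : ⟪m, s • a + t • v⟫ = 0 := by rw [hst, inner_zero_right]
  rw [inner_add_right, inner_smul_right, inner_smul_right, h.hma, mul_zero, zero_add] at h1
  have ht : t = 0 := (mul_eq_zero.1 h1).resolve_right hv
  subst ht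
  rw [zero_smul, add_zero] at hst
  exact ⟨(smul_eq_zero.1 hst).resolve_right h.ha.1, rfl⟩

theorem mem_span_left (a v : E) : a ∈ Submodule.span ℝ {a, v} := Submodule.subset_span (by simp)

theorem mem_span_right (a v : E) : v ∈ Submodule.span ℝ {a, v} := Submodule.subset_span (by simp)

theorem U_mem {q : E} (hq : q ∈ interior (Dir L \ Dir K)) :
    q ∈ interior (Dir L) ∧ q ∉ Dir K :=
  ⟨interior_mono sdiff_subset hq, (interior_subset hq).2⟩

/-- The homothety on `span {a, v}`. -/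
theorem WD.hom (h : WD K L a m) {v : E} (hv : ⟪m, v⟫ ≠ 0) :
    Reg K (Submodule.span ℝ {a, v}) ∧ Reg L (Submodule.span ℝ {a, v}) ∧
      Hom K L (Submodule.span ℝ {a, v}) (ctr K L (Submodule.span ℝ {a, v}))
        (rat K L (Submodule.span ℝ {a, v})) := by
  obtain ⟨q, hq, hqS⟩ := h.ex v hv
  obtain ⟨h1, h2, h3⟩ := h.uc.good q (U_mem hq).1 (U_mem hq).2 _ (finrank_span_pair (h.li hv)) hqS
  exact ⟨h1, h2, ctr_spec h3⟩

theorem WD.coord (h : WD K L a m) {v q x : E} (hq : q ∈ interior (Dir L \ Dir K))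
    (hqS : q ∈ Submodule.span ℝ {a, v}) (hx : x ∈ Submodule.span ℝ {a, v}) :
    ∃ α β : ℝ, x = α • a + β • q ∧ ⟪m, x⟫ = β * ⟪m, q⟫ := by
  obtain ⟨c, d, hcd⟩ := Submodule.mem_span_pair.1 hqS
  obtain ⟨c', d', hcd'⟩ := Submodule.mem_span_pair.1 hx
  have hpos := h.pos q hq
  have hd : d ≠ 0 := by
    rintro rfl
    rw [← hcd, zero_smul, add_zero, inner_smul_right, h.hma, mul_zero] at hpos
    exact lt_irrefl _ hpos
  refine ⟨c' - d' / d * c, d' / d, ?_, ?_⟩
  · rw [← hcd', ← hcd, smul_add, smul_smul, smul_smul, div_mul_cancel₀ _ hd]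
    module
  · rw [← hcd', ← hcd]
    simp only [inner_add_right, inner_smul_right, h.hma]
    field_simp
    ring

theorem WD.le (h : WD K L a m) {v : E} (hv : ⟪m, v⟫ ≠ 0) {x : E} {l : ℝ}
    (hH : Hom K L (Submodule.span ℝ {a, v}) x l) : ⟪m, x⟫ ≤ 0 := by
  obtain ⟨q, hq, hqS⟩ := h.ex v hv
  obtain ⟨α, β, hx, hmx⟩ := h.coord hq hqS hH.1
  have hpos := h.pos q hq
  by_contra hcon
  push Not at hcon
  have hβ : 0 < β := by
    rw [hmx] at hcon
    exact (mul_pos_iff_of_pos_right hpos).1 hcon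
  have hg := hH.gHom h.uc.hK h.uc.hL
  set t : ℝ := 1 / (1 + |α|) with ht
  have htpos : 0 < t := by positivity
  have h1 : 0 < 1 + t * α := by
    have h2 : t * |α| < 1 := by
      rw [ht, one_div, ← div_eq_inv_mul, div_lt_one (by positivity)]
      linarith
    have h3 : -(t * |α|) ≤ t * α := by
      rw [← mul_neg]
      exact mul_le_mul_of_nonneg_left (neg_abs_le α) htpos.le
    linarith
  have e : a + t • x = (1 + t * α) • a + (t * β) • q := by rw [hx]; module
  apply wall_comb h.uc h.hai hq h1 (mul_pos htpos hβ)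
  rw [← e]
  refine (hg.add_mem h.uc.hK h.uc.hL ⟨h.ha, mem_span_left a v⟩ htpos.le ?_).1
  rw [e]
  intro h0
  have h2 : ⟪m, (1 + t * α) • a + (t * β) • q⟫ = 0 := by rw [h0, inner_zero_right]
  simp only [inner_add_right, inner_smul_right, h.hma] at h2
  have := mul_pos (mul_pos htpos hβ) hpos
  linarith

/-- EDGE for the wall `a` itself. -/
theorem WD.edge (h : WD K L a m) {v : E} (hv : ⟪m, v⟫ ≠ 0) {x : E} {l : ℝ}
    (hH : Hom K L (Submodule.span ℝ {a, v}) x l) (hlt : ⟪m, x⟫ < 0) {t : ℝ} (ht : 0 < t)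
    (hta : t • a ∈ K) : rad L (t • a - x) = l⁻¹ := by
  obtain ⟨q, hq, hqS⟩ := h.ex v hv
  obtain ⟨α, β, hx, hmx⟩ := h.coord hq hqS hH.1
  have hpos := h.pos q hq
  have hβ : β < 0 := by
    rw [hmx] at hlt
    by_contra hcon
    push Not at hcon
    have := mul_nonneg hcon hpos.le
    linarith
  exact SB.edge h.uc h.ha h.hai hq (mem_span_left a v) hH hx hβ ht hta

/-- Continuity. -/
theorem WD.tendsto [FiniteDimensional ℝ E] (h : WD K L a m) {v₀ : E} (hv : ⟪m, v₀⟫ ≠ 0) :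
    Tendsto (fun v => ctr K L (Submodule.span ℝ {a, v})) (𝓝 v₀)
        (𝓝 (ctr K L (Submodule.span ℝ {a, v₀}))) ∧
      Tendsto (fun v => rat K L (Submodule.span ℝ {a, v})) (𝓝 v₀)
        (𝓝 (rat K L (Submodule.span ℝ {a, v₀}))) := by
  obtain ⟨h1, h2, h3⟩ := h.hom hv
  obtain ⟨q, hq, hqS⟩ := h.ex v₀ hv
  have hev : ∀ᶠ v in 𝓝 v₀, ⟪m, v⟫ ≠ 0 :=
    (continuous_const.inner continuous_id).continuousAt.eventually_ne hv
  refine tendsto_ctr_pair h.uc.hK h.uc.hL tendsto_id (h.li hv) ?_ ⟨_, _, h3⟩ h1 h2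
    ⟨a, h.ha, mem_span_left a v₀⟩ ⟨q, (interior_subset hq).1, hqS⟩
  filter_upwards [hev] with v hv'
  exact ⟨_, _, (h.hom hv').2.2⟩

/-- FLAT. -/
theorem WD.flat [FiniteDimensional ℝ E] (h : WD K L a m) {v₀ : E} (hv : ⟪m, v₀⟫ ≠ 0) {x₀ : E}
    {l₀ : ℝ} (hH : Hom K L (Submodule.span ℝ {a, v₀}) x₀ l₀) (hlt : ⟪m, x₀⟫ < 0) {t₀ : ℝ}
    (ht0 : 0 < t₀) (ht1 : t₀ < rad K a) :
    ∃ ε : ℝ, 0 < ε ∧ ∀ a', a' ∈ Dir K → a' ∉ interior (Dir K) → dist a' a < ε →
      ∀ z, dist z (l₀⁻¹ • (t₀ • a - x₀)) < ε → ∀ δ : ℝ, |δ| < ε →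
        rad L (z + δ • a') = rad L z := by
  have hK := h.uc.hK
  have hL := h.uc.hL
  have hl := hH.2.1
  set z₀ : E := l₀⁻¹ • (t₀ • a - x₀) with hz₀
  by_contra hcon
  push Not at hcon
  have hcon' : ∀ n : ℕ, ∃ a', a' ∈ Dir K ∧ a' ∉ interior (Dir K) ∧ dist a' a < 1 / ((n : ℝ) + 1) ∧
      ∃ z, dist z z₀ < 1 / ((n : ℝ) + 1) ∧ ∃ δ : ℝ, |δ| < 1 / ((n : ℝ) + 1) ∧
        rad L (z + δ • a') ≠ rad L z := fun n => hcon _ (by positivity)
  choose an han hani hand zn hzn δn hδn hne using hcon'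
  have hn0 : Tendsto (fun n : ℕ => 1 / ((n : ℝ) + 1)) atTop (𝓝 0) :=
    tendsto_one_div_add_atTop_nhds_zero_nat
  have hta : Tendsto an atTop (𝓝 a) := by
    rw [tendsto_iff_dist_tendsto_zero]
    exact squeeze_zero (fun _ => dist_nonneg) (fun n => (hand n).le) hn0
  have htz : Tendsto zn atTop (𝓝 z₀) := by
    rw [tendsto_iff_dist_tendsto_zero]
    exact squeeze_zero (fun _ => dist_nonneg) (fun n => (hzn n).le) hn0
  have htδ : Tendsto δn atTop (𝓝 0) := by
    rw [tendsto_zero_iff_abs_tendsto_zero]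
    exact squeeze_zero (fun _ => abs_nonneg _) (fun n => (hδn n).le) hn0
  -- `z₀`
  have hmz : 0 < ⟪m, z₀⟫ := by
    rw [hz₀, inner_smul_right, inner_sub_right, inner_smul_right, h.hma]
    have := inv_pos.2 hl
    nlinarith [mul_pos this (neg_pos.2 hlt)]
  have hli : LinearIndependent ℝ ![a, z₀] := h.li hmz.ne'
  have hx₀ : x₀ = t₀ • a + (-l₀) • z₀ := by
    rw [hz₀, smul_smul, neg_mul, mul_inv_cancel₀ hl.ne']; module
  have hSeq : Submodule.span ℝ {a, v₀} = Submodule.span ℝ {a, z₀} := by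
    have hle : Submodule.span ℝ {a, z₀} ≤ Submodule.span ℝ {a, v₀} := by
      rw [Submodule.span_le]
      intro w hw
      rcases hw with rfl | hw
      · exact mem_span_left _ v₀
      · rw [mem_singleton_iff.1 hw]
        exact Submodule.smul_mem _ _ (Submodule.sub_mem _
          (Submodule.smul_mem _ _ (mem_span_left a v₀)) hH.1)
    refine (Submodule.eq_of_le_of_finrank_eq hle ?_).symm
    rw [finrank_span_pair hli, finrank_span_pair (h.li hv)]
  obtain ⟨q₀, hq₀, hq₀S⟩ := h.ex z₀ hmz.ne'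
  obtain ⟨c, d, hcd⟩ := Submodule.mem_span_pair.1 hq₀S
  have hd : 0 < d := by
    have h1 := h.pos q₀ hq₀
    rw [← hcd, inner_add_right, inner_smul_right, inner_smul_right, h.hma, mul_zero,
      zero_add] at h1
    exact (mul_pos_iff_of_pos_right hmz).1 h1
  -- the planes
  set S : ℕ → Submodule ℝ E := fun n => Submodule.span ℝ {an n, zn n} with hS
  have hpc : PConv S (Submodule.span ℝ {a, z₀}) := pconv_pair hta htz hli
  set qn : ℕ → E := fun n => c • an n + d • zn n with hqn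
  have hqt : Tendsto qn atTop (𝓝 q₀) := by
    have := (hta.const_smul c).add (htz.const_smul d)
    rwa [hcd] at this
  have hqU : ∀ᶠ n in atTop, qn n ∈ interior (Dir L \ Dir K) :=
    hqt.eventually (isOpen_interior.mem_nhds hq₀)
  have hqS : ∀ n, qn n ∈ S n := fun n => Submodule.add_mem _
    (Submodule.smul_mem _ _ (mem_span_left _ _)) (Submodule.smul_mem _ _ (mem_span_right _ _))
  have hlin : ∀ᶠ n in atTop, LinearIndependent ℝ ![an n, zn n] := by
    have hopen := isOpen_setOfPred_linearIndependent (𝕜 := ℝ) (E := E) (ι := Fin 2)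
    have htend : Tendsto (fun n => ![an n, zn n]) atTop (𝓝 ![a, z₀]) := by
      rw [tendsto_pi_nhds]
      intro i
      fin_cases i
      · exact hta
      · exact htz
    exact htend.eventually (hopen.mem_nhds hli)
  have hHom : ∀ᶠ n in atTop, Hom K L (S n) (ctr K L (S n)) (rat K L (S n)) := by
    filter_upwards [hqU, hlin] with n h1 h2
    exact ctr_spec (h.uc.good (qn n) (U_mem h1).1 (U_mem h1).2 (S n) (finrank_span_pair h2)
      (hqS n)).2.2
  obtain ⟨hR1, hR2, -⟩ := h.hom hv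
  rw [hSeq] at hR1 hR2 hH
  obtain ⟨htx, htl⟩ := tendsto_hom hK hL hpc hHom hR1 hR2 ⟨a, h.ha, mem_span_left a z₀⟩
    ⟨q₀, (interior_subset hq₀).1, hq₀S⟩ hH
  -- coefficients
  have hcoef : ∀ n, ∃ α β : ℝ, (ctr K L (S n) ∈ S n → α • an n + β • zn n = ctr K L (S n)) := by
    intro n
    by_cases hm : ctr K L (S n) ∈ S n
    · obtain ⟨α, β, hαβ⟩ := Submodule.mem_span_pair.1 hm
      exact ⟨α, β, fun _ => hαβ⟩
    · exact ⟨0, 0, fun hm' => absurd hm' hm⟩
  choose αn βn hαβ using hcoef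
  have hαβ' : ∀ᶠ n in atTop, αn n • an n + βn n • zn n = ctr K L (S n) := by
    filter_upwards [hHom] with n hn using hαβ n hn.1
  have htx' : Tendsto (fun n => αn n • an n + βn n • zn n) atTop (𝓝 (t₀ • a + (-l₀) • z₀)) := by
    rw [← hx₀]
    exact htx.congr' (hαβ'.mono fun n hn => hn.symm)
  obtain ⟨hα, hβ⟩ := tendsto_coeff hli hta htz htx'
  -- values
  have hrad : Tendsto (fun n => rad K (an n)) atTop (𝓝 (rad K a)) :=
    hK.tendsto_rad (Eventually.of_forall han) h.ha hta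
  have hβneg : ∀ᶠ n in atTop, βn n < 0 := hβ.eventually (gt_mem_nhds (by linarith))
  have ht2 : ∀ᶠ n in atTop, 0 < αn n := hα.eventually (lt_mem_nhds ht0)
  have ht3 : ∀ᶠ n in atTop, αn n < rad K (an n) := hα.eventually_lt hrad ht1
  have htδ' : Tendsto (fun n => αn n - βn n * δn n) atTop (𝓝 t₀) := by
    have := hα.sub (hβ.mul htδ)
    rwa [mul_zero, sub_zero] at this
  have ht4 : ∀ᶠ n in atTop, 0 < αn n - βn n * δn n := htδ'.eventually (lt_mem_nhds ht0)
  have ht5 : ∀ᶠ n in atTop, αn n - βn n * δn n < rad K (an n) := htδ'.eventually_lt hrad ht1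
  obtain ⟨n, hn1, hn2, hn3, hn4, hn5, hn6, hn7, hn8⟩ := (hβneg.and (ht2.and (ht3.and
    (ht4.and (ht5.and (hαβ'.and (hHom.and hqU))))))).exists
  apply hne n
  have hx1 : ctr K L (S n) = (αn n - βn n * (c / d)) • an n + (βn n / d) • qn n := by
    rw [← hn6, hqn]
    simp only
    rw [smul_add, smul_smul, smul_smul, div_mul_cancel₀ _ hd.ne']
    module
  have hβd : βn n / d < 0 := div_neg_of_neg_of_pos hn1 hd
  have key : ∀ t : ℝ, 0 < t → t < rad K (an n) →
      rad L ((-βn n)⁻¹ • (t • an n - ctr K L (S n))) = (rat K L (S n))⁻¹ / (-βn n)⁻¹ := by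
    intro t h1 h2
    rw [rad_smul (inv_pos.2 (by linarith))]
    congr 1
    exact SB.edge h.uc (han n) (hani n) hn8 (mem_span_left _ _) hn7 hx1 hβd h1
      ((hK.smul_mem (han n).1 h1.le).2 h2.le)
  have hβ0 : βn n ≠ 0 := hn1.ne
  have e1 : zn n = (-βn n)⁻¹ • (αn n • an n - ctr K L (S n)) := by
    rw [← hn6]
    have : αn n • an n - (αn n • an n + βn n • zn n) = (-βn n) • zn n := by module
    rw [this, smul_smul, inv_mul_cancel₀ (neg_ne_zero.2 hβ0), one_smul]
  have e2 : zn n + δn n • an n =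
      (-βn n)⁻¹ • ((αn n - βn n * δn n) • an n - ctr K L (S n)) := by
    have h1 : (αn n - βn n * δn n) • an n - ctr K L (S n) =
        (αn n • an n - ctr K L (S n)) + (-βn n) • (δn n • an n) := by module
    rw [h1, smul_add, ← e1, smul_smul, inv_mul_cancel₀ (neg_ne_zero.2 hβ0), one_smul]
  rw [e2, key _ hn4 hn5]
  conv_rhs => rw [e1]
  rw [key _ hn2 hn3]

/-- Local constancy of `κ` at the points of the second case. -/
theorem WD.loc_const [FiniteDimensional ℝ E] (h : WD K L a m) {v₀ : E} (hv : ⟪m, v₀⟫ ≠ 0)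
    (hlt : ⟪m, ctr K L (Submodule.span ℝ {a, v₀})⟫ < 0) :
    ∀ᶠ v in 𝓝 v₀, ⟪m, (rat K L (Submodule.span ℝ {a, v}))⁻¹ • ctr K L (Submodule.span ℝ {a, v})⟫ =
      ⟪m, (rat K L (Submodule.span ℝ {a, v₀}))⁻¹ • ctr K L (Submodule.span ℝ {a, v₀})⟫ := by
  have hK := h.uc.hK
  have hL := h.uc.hL
  obtain ⟨-, -, hH⟩ := h.hom hv
  set x₀ := ctr K L (Submodule.span ℝ {a, v₀}) with hx₀
  set l₀ := rat K L (Submodule.span ℝ {a, v₀}) with hl₀
  have hl := hH.2.1
  have hrad := hK.rad_pos h.ha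
  set t₀ : ℝ := rad K a / 2 with ht₀
  have ht0 : 0 < t₀ := by positivity
  have ht1 : t₀ < rad K a := by rw [ht₀]; linarith
  have htK : t₀ • a ∈ K := (hK.smul_mem h.ha.1 ht0.le).2 ht1.le
  obtain ⟨ε, hε, hflat⟩ := h.flat hv hH hlt ht0 ht1
  set z₀ : E := l₀⁻¹ • (t₀ • a - x₀) with hz₀
  have hmz : 0 < ⟪m, z₀⟫ := by
    rw [hz₀, inner_smul_right, inner_sub_right, inner_smul_right, h.hma]
    have := inv_pos.2 hl
    nlinarith [mul_pos this (neg_pos.2 hlt)]
  have hrz : rad L z₀ = 1 := by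
    rw [hz₀, rad_smul (inv_pos.2 hl), h.edge hv hH hlt ht0 htK]
    exact div_self (inv_ne_zero hl.ne')
  -- the subspace `M`
  let M : Submodule ℝ E :=
    { carrier := {w | ∃ η : ℝ, 0 < η ∧ ∀ z, dist z z₀ < η → ∀ δ : ℝ, |δ| < η →
        rad L (z + δ • w) = rad L z}
      zero_mem' := ⟨1, one_pos, fun z _ δ _ => by rw [smul_zero, add_zero]⟩
      add_mem' := by
        rintro w w' ⟨η, hη, h1⟩ ⟨η', hη', h1'⟩
        refine ⟨min η (η' / (1 + ‖w‖)), by positivity, fun z hz δ hδ => ?_⟩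
        have hz1 := lt_of_lt_of_le hz (min_le_left _ _)
        have hz2 := lt_of_lt_of_le hz (min_le_right _ _)
        have hδ1 := lt_of_lt_of_le hδ (min_le_left _ _)
        have hδ2 := lt_of_lt_of_le hδ (min_le_right _ _)
        rw [lt_div_iff₀ (by positivity)] at hz2 hδ2
        rw [smul_add, ← add_assoc, h1' _ ?_ _ ?_, h1 _ hz1 _ hδ1]
        · rw [dist_eq_norm] at hz1 hz2 ⊢
          have e : z + δ • w - z₀ = (z - z₀) + δ • w := by abel
          rw [e]
          have h2 := norm_add_le (z - z₀) (δ • w)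
          rw [norm_smul, Real.norm_eq_abs] at h2
          by_cases hw : ‖w‖ = 0
          · rw [hw, mul_zero] at h2
            have := norm_nonneg (z - z₀)
            rw [hw] at hz2
            linarith
          · have hw' : 0 < ‖w‖ := lt_of_le_of_ne (norm_nonneg _) (Ne.symm hw)
            -- use the bounds with the common factor
            have h3 : ‖z - z₀‖ < min η (η' / (1 + ‖w‖)) := by rw [← dist_eq_norm]; exact hz
            have h4 : |δ| * ‖w‖ ≤ min η (η' / (1 + ‖w‖)) * ‖w‖ :=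
              mul_le_mul_of_nonneg_right hδ.le hw'.le
            have h5 : min η (η' / (1 + ‖w‖)) * (1 + ‖w‖) ≤ η' := by
              have := min_le_right η (η' / (1 + ‖w‖))
              rwa [le_div_iff₀ (by positivity)] at this
            linarith
        · have : 0 ≤ |δ| * ‖w‖ := by positivity
          linarith
      smul_mem' := by
        rintro c w ⟨η, hη, h1⟩
        refine ⟨η / (1 + |c|), by positivity, fun z hz δ hδ => ?_⟩
        rw [lt_div_iff₀ (by positivity)] at hz hδ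
        rw [smul_smul]
        apply h1
        · have : 0 ≤ dist z z₀ * |c| := by positivity
          linarith
        · rw [abs_mul]
          have := abs_nonneg δ
          nlinarith }
  have hM : ∀ w, w ∈ M ↔ ∃ η : ℝ, 0 < η ∧ ∀ z, dist z z₀ < η → ∀ δ : ℝ, |δ| < η →
        rad L (z + δ • w) = rad L z := fun _ => Iff.rfl
  have hwall : ∀ a', a' ∈ Dir K → a' ∉ interior (Dir K) → dist a' a < ε → a' ∈ M :=
    fun a' h1 h2 h3 => (hM a').2 ⟨ε, hε, hflat a' h1 h2 h3⟩
  have haM : a ∈ M := hwall a h.ha h.hai (by rw [dist_self]; exact hε)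
  have hz₀M : z₀ ∉ M := by
    rintro ⟨η, hη, h1⟩
    have h2 := h1 z₀ (by rw [dist_self]; exact hη) (η / 2) (by
      rw [abs_of_pos (by positivity)]; linarith)
    have e : z₀ + (η / 2) • z₀ = (1 + η / 2) • z₀ := by rw [add_smul, one_smul]
    rw [e, rad_smul (by positivity), hrz, div_eq_one_iff_eq (by positivity)] at h2
    linarith
  obtain ⟨q₀, hq₀, -⟩ := h.ex v₀ hv
  obtain ⟨r, hr, hnear⟩ := exists_wall_near h.uc h.ha h.hai hq₀ hε
  have hsup : M ⊔ Submodule.span ℝ {q₀} = ⊤ := by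
    apply Submodule.eq_top_of_nonempty_interior'
    refine ⟨a, mem_interior_iff_mem_nhds.2 (Metric.mem_nhds_iff.2 ⟨r, hr, fun v hv' => ?_⟩)⟩
    obtain ⟨τ, h1, h2, h3⟩ := hnear v hv'
    have e : v = (v + τ • q₀) + (-τ) • q₀ := by module
    rw [SetLike.mem_coe, e]
    exact Submodule.add_mem_sup (hwall _ h1 h2 h3)
      (Submodule.smul_mem _ _ (Submodule.mem_span_singleton_self _))
  have hq₀M : q₀ ∉ M := by
    intro hq
    have h1 : M ⊔ Submodule.span ℝ {q₀} ≤ M :=
      sup_le le_rfl (by rw [Submodule.span_singleton_le_iff_mem]; exact hq)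
    rw [hsup] at h1
    exact hz₀M (h1 Submodule.mem_top)
  have hMwall : ∀ v ∈ M, dist v a < r → v ∉ interior (Dir K) := by
    intro v hvM hvr
    obtain ⟨τ, h1, h2, h3⟩ := hnear v hvr
    have h4 := M.sub_mem (hwall _ h1 h2 h3) hvM
    rw [add_sub_cancel_left] at h4
    have hτ : τ = 0 := by
      by_contra hτ
      apply hq₀M
      have := M.smul_mem τ⁻¹ h4
      rwa [smul_smul, inv_mul_cancel₀ hτ, one_smul] at this
    rwa [hτ, zero_smul, add_zero] at h2
  have hUM : ∀ q ∈ interior (Dir L \ Dir K), q ∉ M := by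
    intro q hq hqM
    have htend : Tendsto (fun δ : ℝ => a - δ • q) (𝓝[>] 0) (𝓝 a) := by
      have : Tendsto (fun δ : ℝ => a - δ • q) (𝓝 0) (𝓝 (a - (0 : ℝ) • q)) :=
        (continuous_const.sub (continuous_id.smul continuous_const)).tendsto 0
      rw [zero_smul, sub_zero] at this
      exact this.mono_left nhdsWithin_le_nhds
    obtain ⟨δ, h1, h2⟩ := ((htend.eventually (Metric.ball_mem_nhds a hr)).and
      self_mem_nhdsWithin).exists
    exact hMwall _ (M.sub_mem haM (M.smul_mem _ hqM)) (Metric.mem_ball.1 h1)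
      (h.uc.down a h.ha q hq δ h2)
  have hMm : ∀ v ∈ M, ⟪m, v⟫ = 0 := by
    intro v hvM
    by_contra hne
    obtain ⟨q, hq, hqS⟩ := h.ex v hne
    apply hUM q hq
    have : Submodule.span ℝ {a, v} ≤ M := by
      rw [Submodule.span_le]
      intro w hw
      rcases hw with rfl | hw
      · exact haM
      · rw [mem_singleton_iff.1 hw]; exact hvM
    exact this hqS
  have hmM : ∀ w, ⟪m, w⟫ = 0 → w ∈ M := by
    intro w hw
    have h1 : w ∈ M ⊔ Submodule.span ℝ {q₀} := by rw [hsup]; exact Submodule.mem_top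
    obtain ⟨w', hw', y, hy, rfl⟩ := Submodule.mem_sup.1 h1
    obtain ⟨c, rfl⟩ := Submodule.mem_span_singleton.1 hy
    rw [inner_add_right, hMm w' hw', inner_smul_right, zero_add] at hw
    have hc : c = 0 := (mul_eq_zero.1 hw).resolve_right (h.pos q₀ hq₀).ne'
    rw [hc, zero_smul, add_zero]
    exact hw'
  obtain ⟨η, hη, hunif⟩ := unif_const (f := rad L) (z₀ := z₀) (N := M) (fun w hw => (hM w).1 hw)
  -- the points `z_v`
  obtain ⟨htc, htr⟩ := h.tendsto hv
  rw [← hx₀] at htc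
  rw [← hl₀] at htr
  set Z : E → E := fun v => (rat K L (Submodule.span ℝ {a, v}))⁻¹ •
    (t₀ • a - ctr K L (Submodule.span ℝ {a, v})) with hZ
  have hZt : Tendsto Z (𝓝 v₀) (𝓝 z₀) :=
    (htr.inv₀ hl.ne').smul (tendsto_const_nhds.sub htc)
  have hmZ : Tendsto (fun v => ⟪m, Z v⟫ / ⟪m, z₀⟫) (𝓝 v₀) (𝓝 1) := by
    have := (tendsto_const_nhds (x := m)).inner hZt |>.div_const ⟪m, z₀⟫
    rwa [div_self hmz.ne'] at this
  have hev1 : ∀ᶠ v in 𝓝 v₀, ⟪m, v⟫ ≠ 0 :=
    (continuous_const.inner continuous_id).continuousAt.eventually_ne hv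
  have hev2 : ∀ᶠ v in 𝓝 v₀, ⟪m, ctr K L (Submodule.span ℝ {a, v})⟫ < 0 :=
    ((tendsto_const_nhds (x := m)).inner htc).eventually (gt_mem_nhds hlt)
  have hev3 : ∀ᶠ v in 𝓝 v₀, 0 < ⟪m, Z v⟫ / ⟪m, z₀⟫ := hmZ.eventually (lt_mem_nhds one_pos)
  have hs1 : Tendsto (fun v => (⟪m, Z v⟫ / ⟪m, z₀⟫) • z₀) (𝓝 v₀) (𝓝 z₀) := by
    have := hmZ.smul_const z₀
    rwa [one_smul] at this
  have hev4 : ∀ᶠ v in 𝓝 v₀, dist ((⟪m, Z v⟫ / ⟪m, z₀⟫) • z₀) z₀ < η :=
    hs1.eventually (Metric.ball_mem_nhds z₀ hη)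
  have hev5 : ∀ᶠ v in 𝓝 v₀, ‖Z v - (⟪m, Z v⟫ / ⟪m, z₀⟫) • z₀‖ < η := by
    have h1 := (hZt.sub hs1).norm
    rw [sub_self, norm_zero] at h1
    exact h1.eventually (gt_mem_nhds hη)
  filter_upwards [hev1, hev2, hev3, hev4, hev5] with v h1 h2 h3 h4 h5
  have hHv := (h.hom h1).2.2
  have hlv := hHv.2.1
  have hrZ : rad L (Z v) = 1 := by
    rw [hZ]
    simp only
    rw [rad_smul (inv_pos.2 hlv), h.edge h1 hHv h2 ht0 htK]
    exact div_self (inv_ne_zero hlv.ne')
  set s : ℝ := ⟪m, Z v⟫ / ⟪m, z₀⟫ with hs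
  have hw : Z v - s • z₀ ∈ M := by
    apply hmM
    rw [inner_sub_right, inner_smul_right m z₀ s, hs, div_mul_cancel₀ _ hmz.ne', sub_self]
  have h6 := hunif (s • z₀) h4 _ hw h5
  rw [add_sub_cancel, hrZ, rad_smul h3, hrz, one_div] at h6
  have hs1 : s = 1 := by
    have := congrArg (fun r : ℝ => r⁻¹) h6
    simpa using this.symm
  have h7 : ⟪m, Z v⟫ = ⟪m, z₀⟫ := by
    rw [hs, div_eq_one_iff_eq hmz.ne'] at hs1
    exact hs1
  have h8 : ⟪m, Z v⟫ = -⟪m, (rat K L (Submodule.span ℝ {a, v}))⁻¹ •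
      ctr K L (Submodule.span ℝ {a, v})⟫ := by
    rw [hZ]
    simp only [inner_smul_right, inner_sub_right, h.hma]
    ring
  have h9 : ⟪m, z₀⟫ = -⟪m, l₀⁻¹ • x₀⟫ := by
    rw [hz₀]
    simp only [inner_smul_right, inner_sub_right, h.hma]
    ring
  rw [h8, h9] at h7
  exact neg_injective h7

theorem wallStmt : WallStmt := by
  intro E _ _ _ K L huc a ha hai m hm hma hpos hex
  have h : WD K L a m := ⟨huc, ha, hai, hm, hma, hpos, hex⟩
  have hK := huc.hK
  have hL := huc.hL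
  obtain ⟨qq, hqq⟩ := huc.nonempty
  have hqq' := interior_subset hqq
  have hmqq := hpos qq hqq
  by_cases hcase : ∀ v : E, ⟪m, v⟫ ≠ 0 → ⟪m, ctr K L (Submodule.span ℝ {a, v})⟫ = 0
  · -- case (i) everywhere
    set x₀ := ctr K L (Submodule.span ℝ {a, qq}) with hx₀
    set l₀ := rat K L (Submodule.span ℝ {a, qq}) with hl₀
    have hline : ∀ v : E, ⟪m, v⟫ ≠ 0 → Hom K L (Submodule.span ℝ {a})
        (ctr K L (Submodule.span ℝ {a, v})) (rat K L (Submodule.span ℝ {a, v})) := by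
      intro v hv
      have h1 := (h.hom hv).2.2
      refine h1.mono ?_ ?_
      · rw [Submodule.span_singleton_le_iff_mem]; exact mem_span_left a v
      · obtain ⟨α, β, hαβ⟩ := Submodule.mem_span_pair.1 h1.1
        have h2 := hcase v hv
        rw [← hαβ, inner_add_right, inner_smul_right, inner_smul_right, hma, mul_zero,
          zero_add] at h2
        have hβ : β = 0 := (mul_eq_zero.1 h2).resolve_right hv
        rw [← hαβ, hβ, zero_smul, add_zero]
        exact Submodule.smul_mem _ _ (Submodule.mem_span_singleton_self a)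
    have hconst : ∀ v : E, ⟪m, v⟫ ≠ 0 → ctr K L (Submodule.span ℝ {a, v}) = x₀ ∧
        rat K L (Submodule.span ℝ {a, v}) = l₀ := fun v hv =>
      (hline v hv).unique hK hL (hline qq hmqq.ne')
        (Or.inl ⟨a, ha, Submodule.mem_span_singleton_self a⟩)
    have hl₀pos : 0 < l₀ := (h.hom hmqq.ne').2.2.2.1
    refine ⟨x₀, l₀, hom_top_of_dense hK hL ⟨a, ha⟩ ⟨qq, hqq'.1⟩ hl₀pos
      (A := {z : E | ⟪m, z⟫ ≠ 0}) ?_ ?_⟩
    · -- density
      rw [dense_iff_closure_eq, eq_univ_iff_forall]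
      intro z
      rw [mem_closure_iff_seq_limit]
      by_cases hz : ⟪m, z⟫ = 0
      · refine ⟨fun n : ℕ => z + (1 / ((n : ℝ) + 1)) • m, fun n => ?_, ?_⟩
        · change ⟪m, z + (1 / ((n : ℝ) + 1)) • m⟫ ≠ 0
          rw [inner_add_right, hz, zero_add, inner_smul_right, real_inner_self_eq_norm_sq]
          have : 0 < ‖m‖ := norm_pos_iff.2 hm
          positivity
        · have h1 : Tendsto (fun n : ℕ => 1 / ((n : ℝ) + 1)) atTop (𝓝 0) :=
            tendsto_one_div_add_atTop_nhds_zero_nat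
          have := (h1.smul_const m).const_add z
          rwa [zero_smul, add_zero] at this
      · exact ⟨fun _ => z, fun _ => hz, tendsto_const_nhds⟩
    · intro z hz
      have h1 := (h.hom hz).2.2
      rw [(hconst z hz).1, (hconst z hz).2] at h1
      exact h1.2.2 z (mem_span_right a z)
  · -- case (ii) somewhere
    exfalso
    push Not at hcase
    obtain ⟨v₁, hv₁, hc₁⟩ := hcase
    -- make `⟪m, v₁⟫` positive
    obtain ⟨v₀, hv₀, hc₀⟩ : ∃ v₀, 0 < ⟪m, v₀⟫ ∧ ⟪m, ctr K L (Submodule.span ℝ {a, v₀})⟫ ≠ 0 := by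
      rcases lt_or_gt_of_ne hv₁ with h1 | h1
      · refine ⟨-v₁, by rw [inner_neg_right]; linarith, ?_⟩
        have : Submodule.span ℝ {a, -v₁} = Submodule.span ℝ {a, v₁} := by
          rw [Submodule.span_insert, Submodule.span_insert, ← Set.neg_singleton,
            Submodule.span_neg]
        rwa [this]
      · exact ⟨v₁, h1, hc₁⟩
    set κ : E → ℝ := fun v => ⟪m, (rat K L (Submodule.span ℝ {a, v}))⁻¹ •
      ctr K L (Submodule.span ℝ {a, v})⟫ with hκ
    have hκcont : ∀ v, ⟪m, v⟫ ≠ 0 → ContinuousAt κ v := by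
      intro v hv
      obtain ⟨h1, h2⟩ := h.tendsto hv
      have hl := (h.hom hv).2.2.2.1
      exact (tendsto_const_nhds (x := m)).inner ((h2.inv₀ hl.ne').smul h1)
    have hκ0 : ∀ v, ⟪m, v⟫ ≠ 0 → κ v ≠ 0 → ⟪m, ctr K L (Submodule.span ℝ {a, v})⟫ < 0 := by
      intro v hv hne
      have hH := (h.hom hv).2.2
      refine lt_of_le_of_ne (h.le hv hH) ?_
      intro h0
      apply hne
      rw [hκ]
      simp only
      rw [inner_smul_right, h0, mul_zero]
    have hκv₀ : κ v₀ ≠ 0 := by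
      rw [hκ]
      simp only
      rw [inner_smul_right]
      exact mul_ne_zero (inv_ne_zero (h.hom hv₀.ne').2.2.2.1.ne') hc₀
    -- `κ` is constant on the half-space
    have hpre : IsPreconnected {v : E | 0 < ⟪m, v⟫} := by
      apply Convex.isPreconnected
      exact convex_halfSpace_gt (f := fun v : E => ⟪m, v⟫)
        ⟨fun x y => inner_add_right _ _ _, fun c x => inner_smul_right _ _ _⟩ 0
    have hopenH : IsOpen {v : E | 0 < ⟪m, v⟫} :=
      isOpen_lt continuous_const (continuous_const.inner continuous_id)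
    have hconst : ∀ v, 0 < ⟪m, v⟫ → κ v = κ v₀ := by
      by_contra hcon
      push Not at hcon
      obtain ⟨v₂, hv₂, hne⟩ := hcon
      have hu : IsOpen ({v : E | 0 < ⟪m, v⟫} ∩ {v | κ v = κ v₀}) := by
        rw [isOpen_iff_mem_nhds]
        rintro v ⟨hv, hvκ⟩
        have hvκ' : κ v = κ v₀ := hvκ
        have h1 := h.loc_const (ne_of_gt hv) (hκ0 v (ne_of_gt hv) (by rw [hvκ']; exact hκv₀))
        filter_upwards [h1, hopenH.mem_nhds hv] with v' h2 h3
        exact ⟨h3, h2.trans hvκ'⟩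
      have hw : IsOpen ({v : E | 0 < ⟪m, v⟫} ∩ {v | κ v ≠ κ v₀}) := by
        rw [isOpen_iff_mem_nhds]
        rintro v ⟨hv, hvκ⟩
        filter_upwards [(hκcont v (ne_of_gt hv)).eventually_ne hvκ, hopenH.mem_nhds hv]
          with v' h2 h3
        exact ⟨h3, h2⟩
      obtain ⟨v, -, h1, h2⟩ := hpre _ _ hu hw
        (fun v hv => by
          by_cases h1 : κ v = κ v₀
          · exact Or.inl ⟨hv, h1⟩
          · exact Or.inr ⟨hv, h1⟩)
        ⟨v₀, hv₀, hv₀, rfl⟩ ⟨v₂, hv₂, hv₂, hne⟩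
      exact h2.2 h1.2
    -- a vector `w ⊥ m` not parallel to `a`
    obtain ⟨w, hmw, hwa⟩ : ∃ w : E, ⟪m, w⟫ = 0 ∧ LinearIndependent ℝ ![a, w] := by
      have h1 : Submodule.span ℝ {a} < (Submodule.span ℝ {m})ᗮ := by
        refine lt_of_le_of_ne ?_ ?_
        · rw [Submodule.span_singleton_le_iff_mem, Submodule.mem_orthogonal_singleton_iff_inner_right]
          exact hma
        · intro heq
          have h2 := (Submodule.span ℝ {m}).finrank_add_finrank_orthogonal
          rw [← heq, finrank_span_singleton hm, finrank_span_singleton ha.1] at h2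
          have := huc.dim
          omega
      obtain ⟨w, hw1, hw2⟩ := SetLike.exists_of_lt h1
      refine ⟨w, Submodule.mem_orthogonal_singleton_iff_inner_right.1 hw1, ?_⟩
      rw [LinearIndependent.pair_iff]
      intro s t hst
      by_cases ht : t = 0
      · subst ht
        rw [zero_smul, add_zero] at hst
        exact ⟨(smul_eq_zero.1 hst).resolve_right ha.1, rfl⟩
      · exfalso
        apply hw2
        rw [Submodule.mem_span_singleton]
        refine ⟨-(t⁻¹ * s), ?_⟩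
        have h3 : t • w = -(s • a) := eq_neg_of_add_eq_zero_right hst
        have h4 : w = t⁻¹ • (t • w) := by rw [smul_smul, inv_mul_cancel₀ ht, one_smul]
        rw [h4, h3, smul_neg, smul_smul, neg_smul]
    set vn : ℕ → E := fun n => w + (1 / ((n : ℝ) + 1)) • m with hvn
    have hvt : Tendsto vn atTop (𝓝 w) := by
      have h1 : Tendsto (fun n : ℕ => 1 / ((n : ℝ) + 1)) atTop (𝓝 0) :=
        tendsto_one_div_add_atTop_nhds_zero_nat
      have := (h1.smul_const m).const_add w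
      rwa [zero_smul, add_zero] at this
    have hvpos : ∀ n, 0 < ⟪m, vn n⟫ := by
      intro n
      rw [hvn]
      simp only
      rw [inner_add_right, hmw, zero_add, inner_smul_right, real_inner_self_eq_norm_sq]
      have : 0 < ‖m‖ := norm_pos_iff.2 hm
      positivity
    have hpc := pconv_pair (a := fun _ => a) tendsto_const_nhds hvt hwa
    -- the points `y_n ∈ L`
    set yn : ℕ → E := fun n => -((rat K L (Submodule.span ℝ {a, vn n}))⁻¹ •
      ctr K L (Submodule.span ℝ {a, vn n})) with hyn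
    have hynL : ∀ n, yn n ∈ L := by
      intro n
      have hH := (h.hom (hvpos n).ne').2.2
      have hl := hH.2.1
      have hS : yn n ∈ Submodule.span ℝ {a, vn n} :=
        Submodule.neg_mem _ (Submodule.smul_mem _ _ hH.1)
      rw [← hH.2.2 _ hS]
      have e : ctr K L (Submodule.span ℝ {a, vn n}) +
          rat K L (Submodule.span ℝ {a, vn n}) • yn n = 0 := by
        rw [hyn]
        simp only
        rw [smul_neg, smul_smul, mul_inv_cancel₀ hl.ne', one_smul, add_neg_cancel]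
      rw [e]
      exact hK.zero_mem
    have hynS : ∀ n, yn n ∈ Submodule.span ℝ {a, vn n} := fun n =>
      Submodule.neg_mem _ (Submodule.smul_mem _ _ (h.hom (hvpos n).ne').2.2.1)
    obtain ⟨y, -, φ, hφ, hyt⟩ := hL.compact.tendsto_subseq hynL
    have hyS : y ∈ Submodule.span ℝ {a, w} := by
      apply hpc.2
      intro ε hε
      have h1 : ∀ᶠ n in atTop, dist (yn (φ n)) y < ε :=
        hyt.eventually (Metric.ball_mem_nhds y hε)
      rw [frequently_atTop]
      intro N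
      obtain ⟨n, hn1, hn2⟩ := (h1.and (eventually_ge_atTop N)).exists
      exact ⟨φ n, hn2.trans (hφ.id_le n), yn (φ n), hynS _, Metric.mem_ball.2 hn1⟩
    have hmy : ⟪m, y⟫ = 0 := by
      obtain ⟨α, β, hαβ⟩ := Submodule.mem_span_pair.1 hyS
      rw [← hαβ, inner_add_right, inner_smul_right, inner_smul_right, hma, hmw]
      ring
    have hlim : Tendsto (fun n => ⟪m, yn (φ n)⟫) atTop (𝓝 ⟪m, y⟫) :=
      tendsto_const_nhds.inner hyt
    have hconst2 : ∀ n, ⟪m, yn (φ n)⟫ = -κ v₀ := by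
      intro n
      rw [← hconst (vn (φ n)) (hvpos _), hyn]
      simp only
      rw [inner_neg_right]
    have h3 : ⟪m, y⟫ = -κ v₀ :=
      tendsto_nhds_unique hlim (by simp_rw [hconst2]; exact tendsto_const_nhds)
    rw [hmy] at h3
    exact hκv₀ (by linarith)

end Pool.Agent.H64.SB
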