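import Pool.Agent.H63.SB.Targets
import Pool.Agent.H63.SB.T3

/-!
# C2: the same directions, but not all (MP_bd4439_gt)
-/

namespace Pool.Agent.H64.SB

open Set Filter Topology Module
open Pool.Agent.H63.SB

variable {E : Type*} [NormedAddCommGroup E] [InnerProductSpace ℝ E] {K L : Set E}

theorem smul_Dir_of_pm {v : E} (hv : v ∈ Dir K) (hnv : -v ∈ Dir K) {c : ℝ} (hc : c ≠ 0) :
    c • v ∈ Dir K := by
  rcases lt_or_gt_of_ne hc with h | h
  · have : c • v = (-c) • (-v) := by rw [smul_neg, neg_smul, neg_neg]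
    rw [this]
    exact (smul_mem_Dir (by linarith)).2 hnv
  · exact (smul_mem_Dir h).2 hv

theorem same_add (hK : StarB K) (hL : StarB L) (hD : Dir K = Dir L) {P : Submodule ℝ E} {x : E}
    {l : ℝ} (h : Hom K L P x l) {u : E} (hu : u ∈ Dir K) (huP : u ∈ P) (t : ℝ)
    (hne : u + t • x ≠ 0) : u + t • x ∈ Dir K := by
  have hg := h.gHom hK hL
  rcases le_total 0 t with ht | ht
  · exact (hg.add_mem hK hL ⟨hu, huP⟩ ht hne).1
  · have e : u + t • x = u - (-t) • x := by rw [neg_smul, sub_neg_eq_add]
    rw [e] at hne ⊢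
    rw [hD]
    exact (hg.sub_mem hK hL ⟨hD ▸ hu, huP⟩ (by linarith) hne).1

theorem same_pm (hK : StarB K) (hL : StarB L) (hD : Dir K = Dir L) {P : Submodule ℝ E} {x : E}
    {l : ℝ} (h : Hom K L P x l) (hx : x ≠ 0) : x ∈ Dir K ∧ -x ∈ Dir K := by
  have hg := h.gHom hK hL
  exact ⟨(hg.x_mem hx).2.1, hD ▸ (hg.neg_mem hx).2.1⟩

/-- If `x` is not parallel to `v ∈ D ∩ -D` then `P \ 0 ⊆ D`. -/
theorem same_full (hK : StarB K) (hL : StarB L) (hD : Dir K = Dir L) {x : E} {l : ℝ} {u v : E}
    (h : Hom K L (Submodule.span ℝ {u, v}) x l) (hv : v ∈ Dir K) (hnv : -v ∈ Dir K) {a b : ℝ}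
    (ha : a ≠ 0) (hx : x = a • u + b • v) {w : E} (hw : w ∈ Submodule.span ℝ {u, v})
    (hw0 : w ≠ 0) : w ∈ Dir K := by
  have hvP : v ∈ Submodule.span ℝ {u, v} := Submodule.subset_span (by simp)
  obtain ⟨c, d, hcd⟩ := Submodule.mem_span_pair.1 hw
  set β : ℝ := c / a with hβ
  set α : ℝ := d - c / a * b with hα
  have hw' : w = α • v + β • x := by
    rw [← hcd, hx, hα, hβ, smul_add, smul_smul, smul_smul, div_mul_cancel₀ _ ha]
    module
  rcases lt_trichotomy α 0 with hα0 | hα0 | hα0
  · have e : w = (-α) • (-v + (β / (-α)) • x) := by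
      have h1 : (-α) * (β / (-α)) = β := mul_div_cancel₀ _ (by linarith)
      rw [hw', smul_add, smul_smul, h1]
      module
    have hne : -v + (β / (-α)) • x ≠ 0 := by
      intro h0; apply hw0; rw [e, h0, smul_zero]
    rw [e]
    exact (smul_mem_Dir (by linarith)).2
      (same_add hK hL hD h hnv (Submodule.neg_mem _ hvP) _ hne)
  · rw [hα0, zero_smul, zero_add] at hw'
    have hβ0 : β ≠ 0 := by
      intro h0; apply hw0; rw [hw', h0, zero_smul]
    have hx0 : x ≠ 0 := by
      intro h0; apply hw0; rw [hw', h0, smul_zero]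
    rw [hw']
    have := same_pm hK hL hD h hx0
    exact smul_Dir_of_pm this.1 this.2 hβ0
  · have e : w = α • (v + (β / α) • x) := by
      have h1 : α * (β / α) = β := mul_div_cancel₀ _ (by linarith)
      rw [hw', smul_add, smul_smul, h1]
    have hne : v + (β / α) • x ≠ 0 := by
      intro h0; apply hw0; rw [e, h0, smul_zero]
    rw [e]
    exact (smul_mem_Dir hα0).2 (same_add hK hL hD h hv hvP _ hne)

/-- Centred homothety: radial functions are proportional. -/
theorem rad_of_zero (hK : StarB K) (hL : StarB L) {P : Submodule ℝ E} {l : ℝ}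
    (h : Hom K L P 0 l) {v : E} (hv : v ∈ P) (h0 : v ≠ 0) : rad K v = l * rad L v := by
  have hl := h.2.1
  have key : ∀ t : ℝ, 0 ≤ t → (t * l ≤ rad K v ↔ t ≤ rad L v) := by
    intro t ht
    rw [← hK.smul_mem h0 (mul_nonneg ht hl.le), ← hL.smul_mem h0 ht, ← h.2.2 _ (P.smul_mem t hv),
      zero_add, smul_smul, mul_comm]
  apply le_antisymm
  · have h1 : 0 ≤ rad K v / l := div_nonneg rad_nonneg hl.le
    have h2 := (key (rad K v / l) h1).1 (by rw [div_mul_cancel₀ _ hl.ne'])
    rwa [div_le_iff₀ hl, mul_comm] at h2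
  · have h2 := (key (rad L v) rad_nonneg).2 le_rfl
    rwa [mul_comm] at h2

/-- Asymmetric vectors. -/
theorem asym_add [FiniteDimensional ℝ E] (hK : StarB K) (hL : StarB L) (hD : Dir K = Dir L)
    (hall : AllHom K L 2) {v : E} (hv : v ∈ Dir K) (hnv : -v ∈ Dir K)
    (hA : rad K v * rad L (-v) ≠ rad K (-v) * rad L v) {u : E} (hu : u ∈ Dir K) (t : ℝ) :
    u + t • v = 0 ∨ u + t • v ∈ Dir K := by
  by_cases h0 : u + t • v = 0
  · exact Or.inl h0
  right
  by_cases hpar : ∃ c : ℝ, u = c • v
  · obtain ⟨c, rfl⟩ := hpar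
    rw [← add_smul] at h0 ⊢
    apply smul_Dir_of_pm hv hnv
    intro h1; apply h0; rw [h1, zero_smul]
  have hv0 : v ≠ 0 := hv.1
  have hli : LinearIndependent ℝ ![u, v] := by
    rw [LinearIndependent.pair_iff]
    intro s r hsr
    by_cases hs : s = 0
    · subst hs
      rw [zero_smul, zero_add] at hsr
      exact ⟨rfl, (smul_eq_zero.1 hsr).resolve_right hv0⟩
    · exfalso
      apply hpar
      refine ⟨-(s⁻¹ * r), ?_⟩
      have h1 : s • u = -(r • v) := eq_neg_of_add_eq_zero_left hsr
      have h2 : u = s⁻¹ • (s • u) := by rw [smul_smul, inv_mul_cancel₀ hs, one_smul]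
      rw [h2, h1, smul_neg, smul_smul, neg_smul]
  obtain ⟨x, l, h⟩ := hall _ (finrank_span_pair hli)
  have hvP : v ∈ Submodule.span ℝ {u, v} := Submodule.subset_span (by simp)
  have huP : u ∈ Submodule.span ℝ {u, v} := Submodule.subset_span (by simp)
  have hx : x ≠ 0 := by
    rintro rfl
    apply hA
    rw [rad_of_zero hK hL h hvP hv0,
      rad_of_zero hK hL h (Submodule.neg_mem _ hvP) (neg_ne_zero.2 hv0)]
    ring
  obtain ⟨a, b, hab⟩ := Submodule.mem_span_pair.1 h.1
  by_cases ha : a = 0
  · rw [ha, zero_smul, zero_add] at hab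
    have hb : b ≠ 0 := by
      intro h1; apply hx; rw [← hab, h1, zero_smul]
    have e : u + t • v = u + (t / b) • x := by
      rw [← hab, smul_smul, div_mul_cancel₀ _ hb]
    rw [e] at h0 ⊢
    exact same_add hK hL hD h hu huP _ h0
  · exact same_full hK hL hD h hv hnv ha hab.symm
      (Submodule.add_mem _ huP (Submodule.smul_mem _ _ hvP)) h0

/-- Extending a subspace to one of given dimension. -/
theorem exists_le_finrank [FiniteDimensional ℝ E] (U : Submodule ℝ E) {k : ℕ}
    (h1 : finrank ℝ U ≤ k) (h2 : k ≤ finrank ℝ E) :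
    ∃ S : Submodule ℝ E, U ≤ S ∧ finrank ℝ S = k := by
  obtain ⟨m, rfl⟩ := Nat.exists_eq_add_of_le h1
  clear h1
  induction m with
  | zero => exact ⟨U, le_rfl, by simp⟩
  | succ m ih =>
    obtain ⟨S, hUS, hS⟩ := ih (by omega)
    have hne : S ≠ ⊤ := by
      rintro rfl
      rw [finrank_top] at hS
      omega
    obtain ⟨v, hv⟩ : ∃ v, v ∉ S := by
      by_contra hcon
      push Not at hcon
      exact hne (Submodule.eq_top_iff'.2 hcon)
    refine ⟨S ⊔ Submodule.span ℝ {v}, hUS.trans le_sup_left, ?_⟩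
    have hv0 : v ≠ 0 := fun h => hv (h ▸ S.zero_mem)
    have hdisj : S ⊓ Submodule.span ℝ {v} = ⊥ := by
      rw [eq_bot_iff]
      intro w hw
      obtain ⟨hw1, hw2⟩ := Submodule.mem_inf.1 hw
      obtain ⟨c, rfl⟩ := Submodule.mem_span_singleton.1 hw2
      by_cases hc : c = 0
      · simp [hc]
      · exfalso
        apply hv
        have := S.smul_mem c⁻¹ hw1
        rwa [smul_smul, inv_mul_cancel₀ hc, one_smul] at this
    have := Submodule.finrank_sup_add_finrank_inf_eq S (Submodule.span ℝ {v})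
    rw [hdisj, finrank_bot, finrank_span_singleton hv0, hS] at this
    omega

theorem caseSame : CaseSameStmt := by
  intro E _ _ _ K L hK hL hD hne ⟨n, hn0, hn⟩ hdim hall
  have hneL : (Dir L).Nonempty := hD ▸ hne
  -- restriction to a line
  have hline : ∀ (P : Submodule ℝ E) (x l : _) (e : E), Hom K L P x l → (∃ c : ℝ, x = c • e) →
      e ∈ P → Hom K L (Submodule.span ℝ {e}) x l := by
    rintro P x l e h ⟨c, rfl⟩ he
    exact h.mono (by rw [Submodule.span_singleton_le_iff_mem]; exact he)
      (Submodule.smul_mem _ _ (Submodule.mem_span_singleton_self e))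
  have hlinemem : ∀ e : E, e ∈ Dir K → (Dir K ∩ (Submodule.span ℝ {e} : Set E)).Nonempty :=
    fun e he => ⟨e, he, Submodule.mem_span_singleton_self e⟩
  by_cases hcase : ∃ (P : Submodule ℝ E) (e : E) (l : ℝ), finrank ℝ P = 2 ∧
      (∃ w ∈ P, w ≠ 0 ∧ w ∉ Dir K) ∧ Hom K L P e l ∧ e ≠ 0
  · -- Case I
    obtain ⟨P₀, e, l, hP₀, ⟨w₀, hw₀P, hw₀0, hw₀D⟩, h₀, he0⟩ := hcase
    obtain ⟨heD, hneD⟩ := same_pm hK hL hD h₀ he0
    have hle : Hom K L (Submodule.span ℝ {e}) e l := hline P₀ e l e h₀ ⟨1, by simp⟩ h₀.1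
    have hl := h₀.2.1
    -- `e` is asymmetric
    have heA : rad K e * rad L (-e) ≠ rad K (-e) * rad L e := by
      have heL : e ∈ Dir L := hD ▸ heD
      have hneL' : -e ∈ Dir L := hD ▸ hneD
      have hne0 : -e ≠ 0 := neg_ne_zero.2 he0
      have h1 : 1 + l * rad L e ≤ rad K e := by
        rw [← hK.smul_mem he0 (by have := mul_nonneg hl.le (rad_nonneg (K := L) (z := e)); linarith)]
        have h2 := (h₀.2.2 (rad L e • e) (P₀.smul_mem _ h₀.1)).2
          ((hL.smul_mem he0 rad_nonneg).2 le_rfl)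
        have e1 : e + l • rad L e • e = (1 + l * rad L e) • e := by
          rw [add_smul, one_smul, smul_smul]
        rwa [e1] at h2
      have h2 : rad K (-e) ≤ l * rad L (-e) - 1 := by
        have h3 := (hK.smul_mem hne0 rad_nonneg).2 (le_refl (rad K (-e)))
        have h4 : ((rad K (-e) + 1) / l) • (-e) ∈ L := by
          rw [← h₀.2.2 _ (P₀.smul_mem _ (P₀.neg_mem h₀.1))]
          have e1 : e + l • ((rad K (-e) + 1) / l) • (-e) = rad K (-e) • (-e) := by
            rw [smul_smul, mul_div_cancel₀ _ hl.ne', add_smul, one_smul]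
            abel
          rw [e1]; exact h3
        have h5 := (hL.smul_mem hne0 (div_nonneg (by
          have := rad_nonneg (K := K) (z := -e); linarith) hl.le)).1 h4
        rw [div_le_iff₀ hl] at h5
        linarith
      have h3 := hL.rad_pos heL
      have h4 := hL.rad_pos hneL'
      intro heq
      have h5 : rad K (-e) * rad L e ≤ (l * rad L (-e) - 1) * rad L e :=
        mul_le_mul_of_nonneg_right h2 h3.le
      have h6 : (1 + l * rad L e) * rad L (-e) ≤ rad K e * rad L (-e) :=
        mul_le_mul_of_nonneg_right h1 h4.le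
      nlinarith
    -- (1) and (2)
    have hplane : ∀ z : E, LinearIndependent ℝ ![z, e] →
        (∃ w ∈ Submodule.span ℝ {z, e}, w ≠ 0 ∧ w ∉ Dir K) →
        Hom K L (Submodule.span ℝ {z, e}) e l := by
      intro z hli ⟨w, hwP, hw0, hwD⟩
      obtain ⟨x, l', h⟩ := hall _ (finrank_span_pair hli)
      have heP : e ∈ Submodule.span ℝ {z, e} := Submodule.subset_span (by simp)
      obtain ⟨a, b, hab⟩ := Submodule.mem_span_pair.1 h.1
      by_cases ha : a = 0
      · rw [ha, zero_smul, zero_add] at hab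
        have h1 := hline _ x l' e h ⟨b, hab.symm⟩ heP
        obtain ⟨h2, h3⟩ := h1.unique hK hL hle (Or.inl (hlinemem e heD))
        subst h3
        rw [h2] at h
        exact h
      · exact absurd (same_full hK hL hD h heD hneD ha hab.symm hwP hw0) hwD
    -- the subspace `Λ`
    let Λ : Submodule ℝ E :=
      { carrier := {v | (v = 0 ∨ (v ∈ Dir K ∧ -v ∈ Dir K)) ∧
          ∀ u ∈ Dir K, ∀ t : ℝ, u + t • v = 0 ∨ u + t • v ∈ Dir K}
        zero_mem' := ⟨Or.inl rfl, fun u hu t => Or.inr (by rwa [smul_zero, add_zero])⟩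
        add_mem' := by
          rintro v w ⟨hv1, hv2⟩ ⟨hw1, hw2⟩
          refine ⟨?_, ?_⟩
          · rcases hv1 with rfl | ⟨hv1, hv1'⟩
            · rw [zero_add]; exact hw1
            · by_cases h0 : v + w = 0
              · exact Or.inl h0
              · right
                constructor
                · have := hw2 v hv1 1
                  rw [one_smul] at this
                  exact this.resolve_left h0
                · have := hw2 (-v) hv1' (-1)
                  rw [neg_smul, one_smul] at this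
                  have e1 : -(v + w) = -v + -w := neg_add v w
                  rw [e1]
                  exact this.resolve_left (by rw [← e1]; exact neg_ne_zero.2 h0)
          · intro u hu t
            have e1 : u + t • (v + w) = (u + t • v) + t • w := by rw [smul_add]; abel
            rw [e1]
            rcases hv2 u hu t with h1 | h1
            · rw [h1, zero_add]
              by_cases ht : t = 0
              · left; rw [ht, zero_smul]
              · rcases hw1 with rfl | ⟨hw1, hw1'⟩
                · left; rw [smul_zero]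
                · right; exact smul_Dir_of_pm hw1 hw1' ht
            · exact hw2 _ h1 t
        smul_mem' := by
          rintro c v ⟨hv1, hv2⟩
          refine ⟨?_, fun u hu t => ?_⟩
          · by_cases hc : c = 0
            · left; rw [hc, zero_smul]
            · rcases hv1 with rfl | ⟨hv1, hv1'⟩
              · left; rw [smul_zero]
              · right
                refine ⟨smul_Dir_of_pm hv1 hv1' hc, ?_⟩
                rw [← neg_smul]
                exact smul_Dir_of_pm hv1 hv1' (neg_ne_zero.2 hc)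
          · rw [smul_smul]; exact hv2 u hu _ }
    have hΛ : ∀ v, v ∈ Λ ↔ ((v = 0 ∨ (v ∈ Dir K ∧ -v ∈ Dir K)) ∧
        ∀ u ∈ Dir K, ∀ t : ℝ, u + t • v = 0 ∨ u + t • v ∈ Dir K) := fun v => Iff.rfl
    have hAΛ : ∀ v, v ∈ Dir K → -v ∈ Dir K → rad K v * rad L (-v) ≠ rad K (-v) * rad L v →
        v ∈ Λ := fun v h1 h2 h3 =>
      (hΛ v).2 ⟨Or.inr ⟨h1, h2⟩, fun u hu t => asym_add hK hL hD hall h1 h2 h3 hu t⟩
    have heΛ : e ∈ Λ := hAΛ e heD hneD heA
    have hnΛ : n ∉ Λ := by
      intro h
      rcases ((hΛ n).1 h).1 with h1 | h1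
      · exact hn0 h1
      · exact hn h1.1
    -- (5)
    have hfull : ∀ z : E, (∀ w ∈ Submodule.span ℝ {z, e}, w ≠ 0 → w ∈ Dir K) → z ∈ Λ := by
      intro z hz
      have hmem : ∀ δ : ℝ, e + δ • z ∈ Submodule.span ℝ {z, e} := fun δ =>
        Submodule.add_mem _ (Submodule.subset_span (by simp))
          (Submodule.smul_mem _ _ (Submodule.subset_span (by simp)))
      have htend : Tendsto (fun δ : ℝ => e + δ • z) (𝓝[>] 0) (𝓝 e) := by
        have : Tendsto (fun δ : ℝ => e + δ • z) (𝓝 0) (𝓝 (e + (0 : ℝ) • z)) :=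
          (continuous_const.add (continuous_id.smul continuous_const)).tendsto 0
        rw [zero_smul, add_zero] at this
        exact this.mono_left nhdsWithin_le_nhds
      have hnz : ∀ᶠ δ : ℝ in 𝓝[>] 0, e + δ • z ≠ 0 := htend.eventually_ne he0
      have hD1 : ∀ᶠ δ : ℝ in 𝓝[>] 0, e + δ • z ∈ Dir K := hnz.mono fun δ h => hz _ (hmem δ) h
      have hD2 : ∀ᶠ δ : ℝ in 𝓝[>] 0, -(e + δ • z) ∈ Dir K :=
        hnz.mono fun δ h => hz _ (Submodule.neg_mem _ (hmem δ)) (neg_ne_zero.2 h)
      have t1 := hK.tendsto_rad hD1 heD htend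
      have t2 := hK.tendsto_rad hD2 hneD htend.neg
      have t3 := hL.tendsto_rad (hD ▸ hD1) (hD ▸ heD) htend
      have t4 := hL.tendsto_rad (hD ▸ hD2) (hD ▸ hneD) htend.neg
      have t5 := ((t1.mul t4).sub (t2.mul t3)).eventually_ne (sub_ne_zero.2 heA)
      obtain ⟨δ, ⟨⟨h1, h2⟩, h3⟩, h4⟩ :=
        (((hD1.and hD2).and t5).and self_mem_nhdsWithin).exists
      have h4' : (0 : ℝ) < δ := h4
      have h5 := hAΛ _ h1 h2 (sub_ne_zero.1 h3)
      have h6 := Λ.smul_mem δ⁻¹ (Λ.sub_mem h5 heΛ)
      have e1 : δ⁻¹ • (e + δ • z - e) = z := by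
        rw [add_sub_cancel_left, smul_smul, inv_mul_cancel₀ h4'.ne', one_smul]
      rwa [e1] at h6
    refine ⟨e, l, hom_top_of_dense hK hL hne hneL hl (A := (Λ : Set E)ᶜ) ?_ ?_⟩
    · rw [← interior_eq_empty_iff_dense_compl]
      by_contra hcon
      have h1 := Λ.eq_top_of_nonempty_interior' (nonempty_iff_ne_empty.2 hcon)
      exact hnΛ (h1 ▸ Submodule.mem_top)
    · intro z hz
      have hzΛ : z ∉ Λ := hz
      have hli : LinearIndependent ℝ ![z, e] := by
        rw [LinearIndependent.pair_iff]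
        intro s r hsr
        by_cases hs : s = 0
        · subst hs
          rw [zero_smul, zero_add] at hsr
          exact ⟨rfl, (smul_eq_zero.1 hsr).resolve_right he0⟩
        · exfalso
          apply hzΛ
          have h1 : s • z = -(r • e) := eq_neg_of_add_eq_zero_left hsr
          have h2 : z = s⁻¹ • (s • z) := by rw [smul_smul, inv_mul_cancel₀ hs, one_smul]
          rw [h2, h1]
          exact Λ.smul_mem _ (Λ.neg_mem (Λ.smul_mem _ heΛ))
      have h1 : ∃ w ∈ Submodule.span ℝ {z, e}, w ≠ 0 ∧ w ∉ Dir K := by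
        by_contra hcon
        push Not at hcon
        exact hzΛ (hfull z hcon)
      exact (hplane z hli h1).2.2 z (Submodule.subset_span (by simp))
  · -- Case II
    push Not at hcase
    have hzero : ∀ (P : Submodule ℝ E) (x : E) (l : ℝ), finrank ℝ P = 2 → Hom K L P x l →
        x = 0 := by
      intro P x l hP h
      by_cases hw : ∃ w ∈ P, w ≠ 0 ∧ w ∉ Dir K
      · exact hcase P x l hP hw h
      push Not at hw
      by_contra hx
      have hxD := (same_pm hK hL hD h hx).1
      have hnP : n ∉ P := fun hnP => hn (hw n hnP hn0)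
      have hli : LinearIndependent ℝ ![n, x] := by
        rw [LinearIndependent.pair_iff]
        intro s r hsr
        by_cases hs : s = 0
        · subst hs
          rw [zero_smul, zero_add] at hsr
          exact ⟨rfl, (smul_eq_zero.1 hsr).resolve_right hx⟩
        · exfalso
          apply hnP
          have h1 : s • n = -(r • x) := eq_neg_of_add_eq_zero_left hsr
          have h2 : n = s⁻¹ • (s • n) := by rw [smul_smul, inv_mul_cancel₀ hs, one_smul]
          rw [h2, h1]
          exact P.smul_mem _ (P.neg_mem (P.smul_mem _ h.1))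
      obtain ⟨x', l', h'⟩ := hall _ (finrank_span_pair hli)
      have hx' := hcase _ x' l' (finrank_span_pair hli)
        ⟨n, Submodule.subset_span (by simp), hn0, hn⟩ h'
      subst hx'
      have h1 := hline P x l x h ⟨1, by simp⟩ h.1
      have h2 := hline _ 0 l' x h' ⟨0, by simp⟩ (Submodule.subset_span (by simp))
      exact hx (h1.unique hK hL h2 (Or.inl (hlinemem x hxD))).1
    -- constant ratio
    obtain ⟨v₀, hv₀⟩ := hne
    have hpair : ∀ w : E, ∃ P : Submodule ℝ E, finrank ℝ P = 2 ∧ v₀ ∈ P ∧ w ∈ P := by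
      intro w
      obtain ⟨P, hP1, hP2⟩ := exists_le_finrank (Submodule.span ℝ ({v₀, w} : Set E)) (k := 2)
        (by
          have h1 := finrank_range_le_card (R := ℝ) (b := ![v₀, w])
          rw [range_pair, Fintype.card_fin] at h1
          exact h1) (by omega)
      exact ⟨P, hP2, hP1 (Submodule.subset_span (by simp)), hP1 (Submodule.subset_span (by simp))⟩
    obtain ⟨P, hP, hv₀P, -⟩ := hpair v₀
    obtain ⟨x, l, h⟩ := hall P hP
    have hx := hzero P x l hP h
    subst hx
    have hl := h.2.1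
    have hv₀L : v₀ ∈ Dir L := hD ▸ hv₀
    have hrat : ∀ w ∈ Dir K, rad K w = l * rad L w := by
      intro w hw
      obtain ⟨P', hP', hv₀P', hwP'⟩ := hpair w
      obtain ⟨x', l', h'⟩ := hall P' hP'
      have hx' := hzero P' x' l' hP' h'
      subst hx'
      have h1 := rad_of_zero hK hL h hv₀P hv₀.1
      have h2 := rad_of_zero hK hL h' hv₀P' hv₀.1
      have h3 : l = l' := by
        have := hL.rad_pos hv₀L
        rw [h1] at h2
        exact mul_right_cancel₀ this.ne' h2
      rw [h3]
      exact rad_of_zero hK hL h' hwP' hw.1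
    refine ⟨0, l, Submodule.mem_top, hl, fun z _ => ?_⟩
    rw [zero_add]
    by_cases hz0 : z = 0
    · rw [hz0, smul_zero]
      exact ⟨fun _ => hL.zero_mem, fun _ => hK.zero_mem⟩
    · rw [hK.smul_mem hz0 hl.le, hL.mem_iff hz0]
      by_cases hzD : z ∈ Dir K
      · rw [hrat z hzD]
        constructor
        · intro h1
          by_contra h2
          push Not at h2
          nlinarith
        · intro h1
          nlinarith
      · rw [hK.rad_eq_zero hz0 hzD, hL.rad_eq_zero hz0 (hD ▸ hzD)]
        constructor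
        · intro h1; linarith
        · intro h1; linarith

end Pool.Agent.H64.SB
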