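import Pool.Agent.H63.SB.Targets
import Pool.Agent.H63.SB.T3

/-!
# A4, part 1: walls, EDGE, FLAT (MP_bd4439_gt)
-/

namespace Pool.Agent.H64.SB

open Set Filter Topology Module
open scoped RealInnerProductSpace
open Pool.Agent.H63.SB

section general

variable {E : Type*} [NormedAddCommGroup E] [InnerProductSpace ℝ E]

/-- Convergence of coefficients. -/
theorem tendsto_coeff {a z : E} (hli : LinearIndependent ℝ ![a, z]) {an zn : ℕ → E}
    (ha : Tendsto an atTop (𝓝 a)) (hz : Tendsto zn atTop (𝓝 z)) {cn dn : ℕ → ℝ} {c d : ℝ}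
    (hx : Tendsto (fun n => cn n • an n + dn n • zn n) atTop (𝓝 (c • a + d • z))) :
    Tendsto cn atTop (𝓝 c) ∧ Tendsto dn atTop (𝓝 d) := by
  set D : ℝ := ⟪a, a⟫ * ⟪z, z⟫ - ⟪a, z⟫ * ⟪z, a⟫ with hD
  have ha0 : a ≠ 0 := hli.ne_zero 0
  have hz0 : z ≠ 0 := hli.ne_zero 1
  have hDne : D ≠ 0 := by
    intro h0
    have h1 : |⟪a, z⟫ / (‖a‖ * ‖z‖)| = 1 := by
      have h2 : ⟪a, z⟫ ^ 2 = (‖a‖ * ‖z‖) ^ 2 := by
        rw [hD, real_inner_self_eq_norm_sq, real_inner_self_eq_norm_sq, real_inner_comm a z] at h0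
        nlinarith
      have h3 : 0 < ‖a‖ * ‖z‖ := mul_pos (norm_pos_iff.2 ha0) (norm_pos_iff.2 hz0)
      rw [abs_div, abs_of_pos h3, div_eq_one_iff_eq h3.ne']
      rw [← abs_of_pos h3]
      exact (sq_eq_sq_iff_abs_eq_abs _ _).1 h2
    obtain ⟨-, r, hr, hzr⟩ := (abs_real_inner_div_norm_mul_norm_eq_one_iff a z).1 h1
    rw [LinearIndependent.pair_iff] at hli
    have := hli r (-1) (by rw [hzr]; simp)
    exact hr this.1
  have hDn : Tendsto (fun n => ⟪a, an n⟫ * ⟪z, zn n⟫ - ⟪a, zn n⟫ * ⟪z, an n⟫) atTop (𝓝 D) :=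
    ((tendsto_const_nhds.inner ha).mul (tendsto_const_nhds.inner hz)).sub
      ((tendsto_const_nhds.inner hz).mul (tendsto_const_nhds.inner ha))
  have hp : Tendsto (fun n => ⟪a, cn n • an n + dn n • zn n⟫) atTop (𝓝 ⟪a, c • a + d • z⟫) :=
    tendsto_const_nhds.inner hx
  have hr : Tendsto (fun n => ⟪z, cn n • an n + dn n • zn n⟫) atTop (𝓝 ⟪z, c • a + d • z⟫) :=
    tendsto_const_nhds.inner hx
  have hev : ∀ᶠ n in atTop, ⟪a, an n⟫ * ⟪z, zn n⟫ - ⟪a, zn n⟫ * ⟪z, an n⟫ ≠ 0 :=
    hDn.eventually_ne hDne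
  constructor
  · have h1 := ((hp.mul ((tendsto_const_nhds (x := z)).inner hz)).sub
      (hr.mul ((tendsto_const_nhds (x := a)).inner hz))).div hDn hDne
    have e1 : (⟪a, c • a + d • z⟫ * ⟪z, z⟫ - ⟪z, c • a + d • z⟫ * ⟪a, z⟫) / D = c := by
      rw [div_eq_iff hDne, hD]
      simp only [inner_add_right, inner_smul_right]
      ring
    rw [e1] at h1
    refine h1.congr' ?_
    filter_upwards [hev] with n hn
    rw [Pi.div_apply, div_eq_iff hn]
    simp only [inner_add_right, inner_smul_right]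
    ring
  · have h1 := ((hr.mul ((tendsto_const_nhds (x := a)).inner ha)).sub
      (hp.mul ((tendsto_const_nhds (x := z)).inner ha))).div hDn hDne
    have e1 : (⟪z, c • a + d • z⟫ * ⟪a, a⟫ - ⟪a, c • a + d • z⟫ * ⟪z, a⟫) / D = d := by
      rw [div_eq_iff hDne, hD]
      simp only [inner_add_right, inner_smul_right]
      ring
    rw [e1] at h1
    refine h1.congr' ?_
    filter_upwards [hev] with n hn
    rw [Pi.div_apply, div_eq_iff hn]
    simp only [inner_add_right, inner_smul_right]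
    ring

/-- Locally constant along every direction of `N` implies locally constant along `N`. -/
theorem unif_const {f : E → ℝ} {z₀ : E} {N : Submodule ℝ E} [FiniteDimensional ℝ N]
    (hN : ∀ w ∈ N, ∃ η : ℝ, 0 < η ∧ ∀ z, dist z z₀ < η → ∀ δ : ℝ, |δ| < η → f (z + δ • w) = f z) :
    ∃ η : ℝ, 0 < η ∧ ∀ z, dist z z₀ < η → ∀ w ∈ N, ‖w‖ < η → f (z + w) = f z := by
  classical
  set b := stdOrthonormalBasis ℝ N with hb
  have key : ∀ s : Finset (Fin (finrank ℝ N)), ∃ η : ℝ, 0 < η ∧ ∀ z, dist z z₀ < η →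
      ∀ c : Fin (finrank ℝ N) → ℝ, (∀ i, |c i| < η) →
        f (z + ∑ i ∈ s, c i • ((b i : N) : E)) = f z := by
    intro s
    induction s using Finset.induction_on with
    | empty => exact ⟨1, one_pos, fun z _ c _ => by simp⟩
    | insert j s hj ih =>
      obtain ⟨η₁, hη₁, h1⟩ := ih
      obtain ⟨η₂, hη₂, h2⟩ := hN (b j) (b j).2
      refine ⟨min η₁ (η₂ / (1 + s.card)), by positivity, fun z hz c hc => ?_⟩
      have hz1 : dist z z₀ < η₁ := lt_of_lt_of_le hz (min_le_left _ _)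
      have hc1 : ∀ i, |c i| < η₁ := fun i => lt_of_lt_of_le (hc i) (min_le_left _ _)
      have hz2 : dist z z₀ < η₂ / (1 + s.card) := lt_of_lt_of_le hz (min_le_right _ _)
      have hc2 : ∀ i, |c i| < η₂ / (1 + s.card) := fun i => lt_of_lt_of_le (hc i) (min_le_right _ _)
      have hle : η₂ / (1 + (s.card : ℝ)) ≤ η₂ := by
        apply div_le_self hη₂.le
        have : (0 : ℝ) ≤ s.card := Nat.cast_nonneg _
        linarith
      rw [Finset.sum_insert hj, add_comm (c j • _), ← add_assoc]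
      rw [h2 _ ?_ _ (lt_of_lt_of_le (hc2 j) hle), h1 z hz1 c hc1]
      -- distance
      have h3 : ‖∑ i ∈ s, c i • ((b i : N) : E)‖ ≤ s.card * (η₂ / (1 + s.card)) := by
        calc ‖∑ i ∈ s, c i • ((b i : N) : E)‖ ≤ ∑ i ∈ s, ‖c i • ((b i : N) : E)‖ :=
              norm_sum_le _ _
          _ ≤ ∑ i ∈ s, (η₂ / (1 + s.card)) := by
              apply Finset.sum_le_sum
              intro i _
              have : ‖((b i : N) : E)‖ = 1 := b.orthonormal.1 i
              rw [norm_smul, this, mul_one, Real.norm_eq_abs]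
              exact (hc2 i).le
          _ = _ := by rw [Finset.sum_const, nsmul_eq_mul]
      rw [dist_eq_norm] at hz2 ⊢
      have h4 : z + ∑ i ∈ s, c i • ((b i : N) : E) - z₀ =
          (z - z₀) + ∑ i ∈ s, c i • ((b i : N) : E) := by abel
      rw [h4]
      have h5 := norm_add_le (z - z₀) (∑ i ∈ s, c i • ((b i : N) : E))
      have h6 : η₂ / (1 + (s.card : ℝ)) + s.card * (η₂ / (1 + s.card)) = η₂ := by
        have : (0 : ℝ) ≤ s.card := Nat.cast_nonneg _
        field_simp
      linarith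
  obtain ⟨η, hη, h⟩ := key Finset.univ
  refine ⟨η, hη, fun z hz w hw hwη => ?_⟩
  have h1 : w = ∑ i ∈ Finset.univ, (b.repr ⟨w, hw⟩ i) • ((b i : N) : E) := by
    have h2 := b.sum_repr ⟨w, hw⟩
    have h3 := congrArg (Submodule.subtype N) h2
    rw [map_sum] at h3
    simpa using h3.symm
  have h2 : ∀ i, |b.repr ⟨w, hw⟩ i| < η := by
    intro i
    have h3 : |b.repr ⟨w, hw⟩ i| ≤ ‖(⟨w, hw⟩ : N)‖ := by
      rw [b.repr_apply_apply]
      have h4 := abs_real_inner_le_norm (b i) (⟨w, hw⟩ : N)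
      rwa [b.orthonormal.1 i, one_mul] at h4
    exact lt_of_le_of_lt h3 hwη
  have h3 := h z hz _ h2
  rwa [← h1] at h3

end general

variable {E : Type} [NormedAddCommGroup E] [InnerProductSpace ℝ E] {K L : Set E}

/-- Above a wall there are no directions of `K`. -/
theorem wall_add (h : UC K L) {a q : E} (hai : a ∉ interior (Dir K))
    (hq : q ∈ interior (Dir L \ Dir K)) {τ : ℝ} (hτ : 0 < τ) : a + τ • q ∉ Dir K := by
  intro hmem
  apply hai
  have := h.down _ hmem q hq τ hτ
  rwa [add_sub_cancel_right] at this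

theorem wall_comb (h : UC K L) {a q : E} (hai : a ∉ interior (Dir K))
    (hq : q ∈ interior (Dir L \ Dir K)) {s t : ℝ} (hs : 0 < s) (ht : 0 < t) :
    s • a + t • q ∉ Dir K := by
  intro hmem
  apply wall_add h hai hq (div_pos ht hs)
  have : a + (t / s) • q = s⁻¹ • (s • a + t • q) := by
    rw [smul_add, smul_smul, smul_smul, inv_mul_cancel₀ hs.ne', one_smul]
    congr 2
    rw [div_eq_inv_mul]
  rw [this]
  exact (smul_mem_Dir (inv_pos.2 hs)).2 hmem

theorem wall_not_parallel (h : UC K L) {a q : E} (ha : a ∈ Dir K) (hai : a ∉ interior (Dir K))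
    (hq : q ∈ interior (Dir L \ Dir K)) (c : ℝ) : q ≠ c • a := by
  rintro rfl
  have hq' := interior_subset hq
  rcases lt_trichotomy c 0 with hc | hc | hc
  · have h1 := wall_comb h hai hq (s := 1 + (-c)) (t := 1) (by linarith) one_pos
    apply h1
    have : (1 + (-c)) • a + (1 : ℝ) • c • a = a := by module
    rw [this]; exact ha
  · apply hq'.1.1
    rw [hc, zero_smul]
  · exact hq'.2 ((smul_mem_Dir hc).2 ha)

/-- EDGE. -/
theorem edge (h : UC K L) {a q : E} (ha : a ∈ Dir K) (hai : a ∉ interior (Dir K))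
    (hq : q ∈ interior (Dir L \ Dir K)) {S : Submodule ℝ E} (haS : a ∈ S) {x : E} {l : ℝ}
    (hH : Hom K L S x l) {α β : ℝ} (hx : x = α • a + β • q) (hβ : β < 0) {t : ℝ} (ht : 0 < t)
    (hta : t • a ∈ K) : rad L (t • a - x) = l⁻¹ := by
  have hL := h.hL
  have hl := hH.2.1
  set z : E := l⁻¹ • (t • a - x) with hz
  have hzS : z ∈ S := S.smul_mem _ (S.sub_mem (S.smul_mem _ haS) hH.1)
  have hxz : x + l • z = t • a := by
    rw [hz, smul_smul, mul_inv_cancel₀ hl.ne', one_smul]; abel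
  have hzL : z ∈ L := by
    rw [← hH.2.2 z hzS, hxz]; exact hta
  have hne : t • a - x ≠ 0 := by
    intro h0
    apply wall_not_parallel h ha hai hq ((t - α) / β)
    have h1 : β • q = (t - α) • a := by
      have : t • a - (α • a + β • q) = 0 := by rw [← hx]; exact h0
      have h2 : (t - α) • a - β • q = 0 := by rw [← this]; module
      exact (sub_eq_zero.1 h2).symm
    rw [div_eq_inv_mul, mul_smul, ← h1, smul_smul, inv_mul_cancel₀ hβ.ne, one_smul]
  have hz0 : z ≠ 0 := smul_ne_zero (inv_ne_zero hl.ne') hne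
  have h1 : 1 ≤ rad L z := (hL.mem_iff hz0).1 hzL
  have h2 : rad L z ≤ 1 := by
    by_contra hcon
    push Not at hcon
    set ε : ℝ := min (rad L z - 1) (t / (1 + |α|)) with hε
    have hεpos : 0 < ε := lt_min (by linarith) (by positivity)
    have hε1 : 1 + ε ≤ rad L z := by
      have := min_le_left (rad L z - 1) (t / (1 + |α|))
      linarith
    have hε2 : ε * |α| < t := by
      have h3 : ε ≤ t / (1 + |α|) := min_le_right _ _
      rw [le_div_iff₀ (by positivity)] at h3
      nlinarith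
    have h4 : (1 + ε) • z ∈ L := (hL.smul_mem hz0 (by linarith)).2 hε1
    have h5 := (hH.2.2 _ (S.smul_mem (1 + ε) hzS)).2 h4
    have e1 : x + l • (1 + ε) • z = ((1 + ε) * t - ε * α) • a + (-(ε * β)) • q := by
      have e2 : l • (1 + ε) • z = (1 + ε) • (t • a - x) := by
        rw [hz, smul_comm, smul_smul l, mul_inv_cancel₀ hl.ne', one_smul]
      rw [e2, hx]
      module
    rw [e1] at h5
    have hs : 0 < (1 + ε) * t - ε * α := by
      have h6 : ε * α ≤ ε * |α| := mul_le_mul_of_nonneg_left (le_abs_self α) hεpos.le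
      have h7 : 0 < ε * t := mul_pos hεpos ht
      linarith
    have hs2 : 0 < -(ε * β) := by
      have := mul_pos hεpos (neg_pos.2 hβ); linarith
    apply wall_comb h hai hq hs hs2
    refine mem_Dir h5 ?_
    intro h0
    apply wall_not_parallel h ha hai hq (((1 + ε) * t - ε * α) / (ε * β))
    have hεβ : ε * β ≠ 0 := by
      have : ε * β < 0 := by linarith
      exact this.ne
    have h8 : (ε * β) • q = ((1 + ε) * t - ε * α) • a := by
      have h9 : ((1 + ε) * t - ε * α) • a - (ε * β) • q = 0 := by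
        rw [neg_smul] at h0
        rw [sub_eq_add_neg]; exact h0
      exact (sub_eq_zero.1 h9).symm
    rw [div_eq_inv_mul, mul_smul, ← h8, smul_smul, inv_mul_cancel₀ hεβ, one_smul]
  have h3 : rad L z = 1 := le_antisymm h2 h1
  have h4 : t • a - x = l • z := by
    rw [hz, smul_smul, mul_inv_cancel₀ hl.ne', one_smul]
  rw [h4, rad_smul hl, h3, one_div]

/-- Lines in a direction of `U` near a wall meet the walls. -/
theorem exists_wall_near (h : UC K L) {a q : E} (ha : a ∈ Dir K)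
    (hai : a ∉ interior (Dir K)) (hq : q ∈ interior (Dir L \ Dir K)) {ε : ℝ} (hε : 0 < ε) :
    ∃ r : ℝ, 0 < r ∧ ∀ v, dist v a < r → ∃ τ : ℝ, v + τ • q ∈ Dir K ∧
      v + τ • q ∉ interior (Dir K) ∧ dist (v + τ • q) a < ε := by
  have hK := h.hK
  obtain ⟨ε₁, hε₁, hcl⟩ := hK.loc_closed ha
  set ε₂ : ℝ := min ε ε₁ with hε₂
  have hε₂pos : 0 < ε₂ := lt_min hε hε₁
  set η : ℝ := ε₂ / (2 * (‖q‖ + 1)) with hη
  have hηpos : 0 < η := by positivity
  have hηq : η * ‖q‖ < ε₂ / 2 := by
    have h1 : η * (‖q‖ + 1) = ε₂ / 2 := by rw [hη]; field_simp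
    nlinarith
  have hdist : ∀ v, dist v a < ε₂ / 2 → ∀ τ : ℝ, |τ| ≤ η → dist (v + τ • q) a < ε₂ := by
    intro v hv τ hτ
    rw [dist_eq_norm] at hv ⊢
    have e : v + τ • q - a = (v - a) + τ • q := by abel
    rw [e]
    have h1 := norm_add_le (v - a) (τ • q)
    have h2 : ‖τ • q‖ ≤ η * ‖q‖ := by
      rw [norm_smul, Real.norm_eq_abs]
      exact mul_le_mul_of_nonneg_right hτ (norm_nonneg _)
    linarith
  have hlow : a - η • q ∈ interior (Dir K) := h.down a ha q hq η hηpos
  have hup : a + η • q ∉ closure (Dir K) := by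
    intro hmem
    have h1 : dist (a + η • q) a < ε₂ := hdist a (by rw [dist_self]; positivity) η
      (by rw [abs_of_pos hηpos])
    exact wall_add h hai hq hηpos (hcl _ (Metric.mem_ball.2 (lt_of_lt_of_le h1
      (min_le_right _ _))) hmem)
  have hev1 : ∀ᶠ v in 𝓝 a, v - η • q ∈ interior (Dir K) :=
    (continuous_id.sub continuous_const).continuousAt.eventually
      (isOpen_interior.mem_nhds hlow)
  have hev2 : ∀ᶠ v in 𝓝 a, v + η • q ∈ (closure (Dir K))ᶜ :=
    (continuous_id.add continuous_const).continuousAt.eventually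
      (isClosed_closure.isOpen_compl.mem_nhds hup)
  obtain ⟨r, hr, hball⟩ := Metric.eventually_nhds_iff.1 (hev1.and hev2)
  refine ⟨min r (ε₂ / 2), by positivity, fun v hv => ?_⟩
  obtain ⟨hv1, hv2⟩ := hball (lt_of_lt_of_le hv (min_le_left _ _))
  have hv3 : dist v a < ε₂ / 2 := lt_of_lt_of_le hv (min_le_right _ _)
  set T : Set ℝ := Icc (-η) η ∩ {τ | v + τ • q ∈ closure (Dir K)} with hT
  have hTc : IsCompact T := by
    apply isCompact_Icc.inter_right
    exact isClosed_closure.preimage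
      (continuous_const.add (continuous_id.smul continuous_const))
  have hTne : T.Nonempty := by
    refine ⟨-η, ⟨⟨le_rfl, by linarith⟩, ?_⟩⟩
    change v + (-η) • q ∈ closure (Dir K)
    rw [neg_smul, ← sub_eq_add_neg]
    exact subset_closure (interior_subset hv1)
  have hmem := hTc.sSup_mem hTne
  set τ : ℝ := sSup T with hτ
  have hτη : τ < η := by
    rcases eq_or_lt_of_le hmem.1.2 with h1 | h1
    · exfalso; apply hv2
      have := hmem.2
      rw [h1] at this
      exact this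
    · exact h1
  have hτabs : |τ| ≤ η := abs_le.2 hmem.1
  have hd := hdist v hv3 τ hτabs
  have hD : v + τ • q ∈ Dir K :=
    hcl _ (Metric.mem_ball.2 (lt_of_lt_of_le hd (min_le_right _ _))) hmem.2
  refine ⟨τ, hD, ?_, lt_of_lt_of_le hd (min_le_left _ _)⟩
  intro hint
  have hev3 : ∀ᶠ σ in 𝓝 τ, v + σ • q ∈ interior (Dir K) :=
    (continuous_const.add (continuous_id.smul continuous_const)).continuousAt.eventually
      (isOpen_interior.mem_nhds hint)
  have hev4 : ∀ᶠ σ in 𝓝[>] τ, v + σ • q ∈ interior (Dir K) ∧ σ < η := by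
    filter_upwards [hev3.filter_mono nhdsWithin_le_nhds,
      (eventually_lt_nhds hτη).filter_mono nhdsWithin_le_nhds] with σ h1 h2 using ⟨h1, h2⟩
  obtain ⟨σ, ⟨h1, h2⟩, h3⟩ := (hev4.and self_mem_nhdsWithin).exists
  have h3' : τ < σ := h3
  have h4 : σ ∈ T := ⟨⟨by have := hmem.1.1; linarith, h2.le⟩, subset_closure (interior_subset h1)⟩
  have h5 := le_csSup hTc.bddAbove h4
  rw [← hτ] at h5
  linarith

end Pool.Agent.H64.SB
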